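import Mathlib

set_option autoImplicit false

namespace Pool.Agent.Lib.MP_6c7e5c_co.Variants.LinearBound

open Finset

/-- The number of permutations of `[n]` (read as words of length `n`) that are subsequences
of the word `w`. -/
def permCount (n : ℕ) (w : List (Fin n)) : ℕ :=
  (Finset.univ.filter (fun π : Equiv.Perm (Fin n) => (List.ofFn π).Sublist w)).card

/-- `h n m`: the minimum length of a word over `[n]` containing at least `m` permutations. -/
noncomputable def h (n m : ℕ) : ℕ :=
  sInf {L : ℕ | ∃ w : List (Fin n), w.length = L ∧ m ≤ permCount n w}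

/-- `ell m n`: the least `l` with `m ≤ l.choose n`. -/
noncomputable def ell (m n : ℕ) : ℕ := sInf {l : ℕ | m ≤ l.choose n}

/-- The word `(0 1 ... n-1)^k`. -/
def cyc (n k : ℕ) (hn : 0 < n) : List (Fin n) :=
  (List.range (k * n)).map (fun j => ⟨j % n, Nat.mod_lt _ hn⟩)

lemma cyc_length (n k : ℕ) (hn : 0 < n) : (cyc n k hn).length = k * n := by
  simp [cyc]

lemma sublist_cyc {n k : ℕ} (hn : 0 < n) (f : Fin n → Fin k) (π : Equiv.Perm (Fin n))
    (hmono : Monotone (f ∘ π)) (htie : ∀ i j, i < j → f (π i) = f (π j) → π i < π j) :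
    (List.ofFn π).Sublist (cyc n k hn) := by
  let idx : Fin n → ℕ := fun i => (f (π i) : ℕ) * n + (π i : ℕ)
  have hidx : StrictMono idx := by
    intro i j hij
    have h1 : f (π i) ≤ f (π j) := hmono hij.le
    rcases h1.lt_or_eq with h2 | h2
    · have h3 : (f (π i) : ℕ) + 1 ≤ (f (π j) : ℕ) := h2
      have h4 : (π i : ℕ) < n := (π i).2
      have h5 : ((f (π i) : ℕ) + 1) * n ≤ (f (π j) : ℕ) * n := Nat.mul_le_mul_right _ h3
      simp only [idx]
      nlinarith
    · have h3 : (π i : ℕ) < (π j : ℕ) := htie i j hij h2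
      simp only [idx, h2]
      omega
  have hsub : (List.ofFn idx).Sublist (List.range (k * n)) := by
    apply List.sublist_of_subperm_of_sortedLE
    · apply List.subperm_of_subset
      · exact List.nodup_ofFn.2 hidx.injective
      · intro x hx
        rw [List.mem_ofFn] at hx
        obtain ⟨i, rfl⟩ := hx
        rw [List.mem_range]
        have h3 : (f (π i) : ℕ) + 1 ≤ k := (f (π i)).2
        have h4 : (π i : ℕ) < n := (π i).2
        have h5 : ((f (π i) : ℕ) + 1) * n ≤ k * n := Nat.mul_le_mul_right _ h3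
        simp only [idx]
        nlinarith
    · exact List.sortedLE_ofFn_iff.2 hidx.monotone
    · exact List.sortedLT_range _ |>.sortedLE
  have := hsub.map (fun j => (⟨j % n, Nat.mod_lt _ hn⟩ : Fin n))
  rw [List.map_ofFn] at this
  have he : ((fun j => (⟨j % n, Nat.mod_lt _ hn⟩ : Fin n)) ∘ idx) = π := by
    funext i
    apply Fin.ext
    simp only [idx, Function.comp]
    rw [Nat.mul_add_mod_self_right, Nat.mod_eq_of_lt (π i).2]
  rw [he] at this
  exact this

lemma pow_le_permCount {n k : ℕ} (hn : 0 < n) :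
    k ^ n ≤ permCount n (cyc n k hn) * 2 ^ (n + k) := by
  classical
  let S := Finset.univ.filter (fun π : Equiv.Perm (Fin n) => (List.ofFn π).Sublist (cyc n k hn))
  let F : (Fin n → Fin k) → Equiv.Perm (Fin n) × Finset ℕ := fun f =>
    (Tuple.sort f, Finset.univ.image (fun i : Fin n => (f (Tuple.sort f i) : ℕ) + (i : ℕ)))
  have hsm : ∀ f : Fin n → Fin k,
      StrictMono (fun i : Fin n => (f (Tuple.sort f i) : ℕ) + (i : ℕ)) := by
    intro f i j hij
    have h1 : f (Tuple.sort f i) ≤ f (Tuple.sort f j) := Tuple.monotone_sort f hij.le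
    have h2 : (f (Tuple.sort f i) : ℕ) ≤ (f (Tuple.sort f j) : ℕ) := h1
    have h3 : (i : ℕ) < j := hij
    simp only
    omega
  have hmaps : ∀ f ∈ (Finset.univ : Finset (Fin n → Fin k)),
      F f ∈ S ×ˢ (Finset.range (n + k)).powerset := by
    intro f _
    rw [Finset.mem_product]
    constructor
    · simp only [S, F, Finset.mem_filter, Finset.mem_univ, true_and]
      have := (Tuple.eq_sort_iff (f := f) (σ := Tuple.sort f)).1 rfl
      exact sublist_cyc hn f _ this.1 this.2
    · simp only [F, Finset.mem_powerset]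
      intro x hx
      rw [Finset.mem_image] at hx
      obtain ⟨i, -, rfl⟩ := hx
      have h1 := (f (Tuple.sort f i)).2
      have h2 := i.2
      rw [Finset.mem_range]
      omega
  have hinj : Set.InjOn F (Finset.univ : Finset (Fin n → Fin k)) := by
    intro f _ g _ hfg
    simp only [F, Prod.mk.injEq] at hfg
    obtain ⟨h1, h2⟩ := hfg
    have h3 : Set.range (fun i : Fin n => (f (Tuple.sort f i) : ℕ) + (i : ℕ)) =
        Set.range (fun i : Fin n => (g (Tuple.sort g i) : ℕ) + (i : ℕ)) := by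
      have := congrArg (fun s : Finset ℕ => (s : Set ℕ)) h2
      simpa only [Finset.coe_image, Finset.coe_univ, Set.image_univ] using this
    rw [(hsm f).range_inj (hsm g)] at h3
    funext x
    have h4 := congrFun h3 ((Tuple.sort f).symm x)
    simp only [← h1, Equiv.apply_symm_apply] at h4
    apply Fin.ext
    omega
  have := Finset.card_le_card_of_injOn F hmaps hinj
  simpa [S, permCount, Finset.card_product, Finset.card_powerset] using this

lemma permCount_full {n k : ℕ} (hn : 0 < n) (hk : n ≤ k) :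
    permCount n (cyc n k hn) = n.factorial := by
  unfold permCount
  rw [Finset.filter_true_of_mem]
  · simp [Fintype.card_perm]
  · intro π _
    apply sublist_cyc hn (fun x => Fin.castLE hk (π.symm x)) π
    · intro i j hij
      simpa using hij
    · intro i j hij h
      simp only [Equiv.symm_apply_apply, Fin.castLE_inj] at h
      exact absurd h hij.ne

lemma exists_word {n m l : ℕ} (hn : 0 < n) (hm : 1 ≤ m) (hmn : m ≤ n.factorial)
    (hl : m ≤ l.choose n) :
    ∃ w : List (Fin n), w.length ≤ 12 * l ∧ m ≤ permCount n w := by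
  have hnl : n ≤ l := by
    by_contra hc
    rw [Nat.choose_eq_zero_of_lt (not_le.1 hc)] at hl
    omega
  set k := 11 * l / n + 1 with hk
  have hk1 : 11 * l ≤ k * n := by
    have := Nat.lt_div_mul_add (a := 11 * l) hn
    rw [hk]; nlinarith
  have hk2 : k * n ≤ 12 * l := by
    have := Nat.div_mul_le_self (11 * l) n
    rw [hk]; nlinarith
  by_cases hkn : n ≤ k
  · exact ⟨cyc n k hn, by rw [cyc_length]; exact hk2, by rw [permCount_full hn hkn]; exact hmn⟩
  · refine ⟨cyc n k hn, by rw [cyc_length]; exact hk2, ?_⟩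
    have h1 := pow_le_permCount (k := k) hn
    have h2 : 2 ^ (n + k) ≤ 4 ^ n := by
      calc 2 ^ (n + k) ≤ 2 ^ (2 * n) := Nat.pow_le_pow_right (by norm_num) (by omega)
        _ = 4 ^ n := by rw [pow_mul]; norm_num
    have h3 : k ^ n ≤ permCount n (cyc n k hn) * 4 ^ n :=
      h1.trans (Nat.mul_le_mul_left _ h2)
    have h4 : (l.choose n : ℝ) ≤ (l : ℝ) ^ n / n.factorial := Nat.choose_le_pow_div n l
    have h5 : (n : ℝ) ^ n / n.factorial ≤ Real.exp n :=
      Real.pow_div_factorial_le_exp (n : ℝ) (Nat.cast_nonneg n) n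
    have h6 : Real.exp n ≤ (11 / 4 : ℝ) ^ n := by
      rw [← Real.exp_one_pow]
      apply pow_le_pow_left₀ (Real.exp_pos 1).le
      have := Real.exp_one_lt_d9
      linarith
    have hnR : (0 : ℝ) < n := by exact_mod_cast hn
    have hfac : (0 : ℝ) < n.factorial := by exact_mod_cast n.factorial_pos
    have h7 : (m : ℝ) * (n : ℝ) ^ n ≤ (l : ℝ) ^ n * (11 / 4 : ℝ) ^ n := by
      have hm' : (m : ℝ) ≤ (l : ℝ) ^ n / n.factorial := le_trans (by exact_mod_cast hl) h4
      calc (m : ℝ) * (n : ℝ) ^ n ≤ (l : ℝ) ^ n / n.factorial * (n : ℝ) ^ n := by gcongr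
        _ = (l : ℝ) ^ n * ((n : ℝ) ^ n / n.factorial) := by ring
        _ ≤ (l : ℝ) ^ n * (11 / 4 : ℝ) ^ n := by gcongr; exact h5.trans h6
    have h8 : ((11 : ℝ) * l) ^ n ≤ ((k : ℝ) * n) ^ n := by
      apply pow_le_pow_left₀ (by positivity)
      exact_mod_cast hk1
    have h9 : (k : ℝ) ^ n ≤ (permCount n (cyc n k hn) : ℝ) * 4 ^ n := by exact_mod_cast h3
    have h10 : (m : ℝ) * ((n : ℝ) ^ n * 4 ^ n) ≤
        (permCount n (cyc n k hn) : ℝ) * ((n : ℝ) ^ n * 4 ^ n) := by
      calc (m : ℝ) * ((n : ℝ) ^ n * 4 ^ n) = (m : ℝ) * (n : ℝ) ^ n * 4 ^ n := by ring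
        _ ≤ (l : ℝ) ^ n * (11 / 4 : ℝ) ^ n * 4 ^ n := by gcongr
        _ = ((11 : ℝ) * l) ^ n := by rw [← mul_pow, ← mul_pow]; congr 1; ring
        _ ≤ ((k : ℝ) * n) ^ n := h8
        _ = (k : ℝ) ^ n * (n : ℝ) ^ n := mul_pow _ _ _
        _ ≤ (permCount n (cyc n k hn) : ℝ) * 4 ^ n * (n : ℝ) ^ n := by gcongr
        _ = _ := by ring
    have h11 : (m : ℝ) ≤ (permCount n (cyc n k hn) : ℝ) :=
      le_of_mul_le_mul_right h10 (by positivity)
    exact_mod_cast h11

theorem result :
    ∀ n m : ℕ, 1 ≤ n → 1 ≤ m → m ≤ n.factorial →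
      (∃ w : List (Fin n), w.length = h n m ∧ m ≤ permCount n w) ∧
      m ≤ (ell m n).choose n ∧ h n m ≤ 12 * ell m n := by
  intro n m hn hm hmn
  have hne : {l : ℕ | m ≤ l.choose n}.Nonempty := by
    refine ⟨n + m, ?_⟩
    show m ≤ (n + m).choose n
    have h1 : (1 + m).choose 1 ≤ (n + m).choose n := by
      rw [Nat.choose_symm_add, Nat.choose_symm_add (a := n)]
      exact Nat.choose_le_choose m (by omega)
    simp at h1
    omega
  have hl : m ≤ (ell m n).choose n := Nat.sInf_mem hne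
  obtain ⟨w, hw1, hw2⟩ := exists_word hn hm hmn hl
  have hne2 : {L : ℕ | ∃ w : List (Fin n), w.length = L ∧ m ≤ permCount n w}.Nonempty :=
    ⟨w.length, w, rfl, hw2⟩
  refine ⟨Nat.sInf_mem hne2, hl, ?_⟩
  have hmem : w.length ∈ {L : ℕ | ∃ w : List (Fin n), w.length = L ∧ m ≤ permCount n w} :=
    ⟨w, rfl, hw2⟩
  exact (Nat.sInf_le hmem).trans hw1

end Pool.Agent.Lib.MP_6c7e5c_co.Variants.LinearBound
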